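import Pool.Agent.Y291.PH.Half

/-!
# Bounded doubling index on half of the small discs: tori analytic in one variable

The torus is `ℝ × ℝ` modulo the lattice generated by `(L, α)` and `(0, 2π)`, with the metric
`ρ(x, y)(dx² + dy²)`, where `ρ` is continuous in both variables and real analytic in `y` only
(uniformly).  This contains, with no assumption on the profile besides continuity, all metrics
invariant under a circle action on the torus.

For every eigenfunction and every covering by discs of radius `C / √lam` with multiplicity at most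
`C₁` (centred at zeros of the eigenfunction or not) at least half of the discs have a doubling index
bounded by a constant that depends only on the metric, `C` and `C₁`; more generally all but the
proportion `1 / s` of the discs have a doubling index below `s K / 2`.
-/

set_option autoImplicit false

namespace Pool.Agent.Results.MP_fc1c69_an.HalfOfDiscs

open Pool.Agent.Y291.DB Pool.Agent.Y291.PA

/-- The geodesic discs of radius `r` with centers `c i` cover the torus and every point lies in at
most `C₁` of them. -/
structure BoundedCovering (ρ : ℝ × ℝ → ℝ) (L α r C₁ : ℝ) {ι : Type} [Fintype ι]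
    (c : ι → ℝ × ℝ) : Prop where
  cover : ∀ q : ℝ × ℝ, ∃ i, q ∈ disc ρ L α (c i) r
  mult : ∀ q : ℝ × ℝ, ({i | q ∈ disc ρ L α (c i) r}.ncard : ℝ) ≤ C₁

/-- Let `ρ` be a continuous positive function on the torus, analytic in the second variable.  For
all `C, C₁ > 0` there is a constant `K` such that for all eigenfunctions and all finite coverings by
geodesic discs of radius `C / √lam` with multiplicity at most `C₁` (the eigenfunction need not vanish
at the centers): (1) at least half of the discs have a doubling index `≤ K`; (2) for every `s > 0` at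
most the proportion `1 / s` of the discs have a doubling index `≥ s K / 2`. -/
theorem result (ρ : ℝ × ℝ → ℝ) (L α : ℝ) (hL : 0 < L) (hρc : Continuous ρ)
    (hρpos : ∀ p, 0 < ρ p) (hρx : ∀ p : ℝ × ℝ, ρ (p.1 + L, p.2 + α) = ρ p)
    (hρy : ∀ p : ℝ × ℝ, ρ (p.1, p.2 + 2 * Real.pi) = ρ p) (hρa : AnalyticInSecond ρ)
    (C C₁ : ℝ) (hC : 0 < C) (hC₁ : 0 < C₁) :
    ∃ K : ℝ, 0 < K ∧ ∀ (lam : ℝ) (φ : ℝ × ℝ → ℝ), Eigen ρ L α lam φ →
      ∀ (ι : Type) [Fintype ι] (c : ι → ℝ × ℝ),
        BoundedCovering ρ L α (C / Real.sqrt lam) C₁ c →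
        (Fintype.card ι : ℝ) / 2 ≤
          (({i | doubling ρ L α φ (c i) (C / Real.sqrt lam) ≤ K}.ncard : ℕ) : ℝ) ∧
        ∀ s : ℝ, 0 < s →
          (({i | s * K / 2 ≤ doubling ρ L α φ (c i) (C / Real.sqrt lam)}.ncard : ℕ) : ℝ) ≤
            Fintype.card ι / s := by
  classical
  obtain ⟨a, ha, hmain⟩ := Pool.Agent.Y291.PH.main hL hρc hρpos hρx hρy hρa hC hC₁
  refine ⟨2 * a, by positivity, fun lam φ hφ ι _ c hc => ?_⟩
  have hw := hmain lam φ hφ ι c hc.cover hc.mult
  have hn0 : (0 : ℝ) ≤ Fintype.card ι := Nat.cast_nonneg _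
  have hweak : ∀ s : ℝ, 0 < s →
      (({i | s * (2 * a) / 2 ≤ doubling ρ L α φ (c i) (C / Real.sqrt lam)}.ncard : ℕ) : ℝ) ≤
        Fintype.card ι / s := by
    intro s hs
    refine (hw (s * (2 * a) / 2) (by positivity)).trans ?_
    refine le_of_eq ?_
    field_simp
  refine ⟨?_, hweak⟩
  · have h2 := hweak 2 two_pos
    have hK : 2 * (2 * a) / 2 = 2 * a := by ring
    rw [hK] at h2
    set U : Set ι := {i | 2 * a ≤ doubling ρ L α φ (c i) (C / Real.sqrt lam)} with hU
    set V : Set ι := {i | doubling ρ L α φ (c i) (C / Real.sqrt lam) ≤ 2 * a} with hV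
    have hUV : (Set.univ : Set ι) ⊆ U ∪ V := by
      intro i _
      rcases le_total (2 * a) (doubling ρ L α φ (c i) (C / Real.sqrt lam)) with h | h
      · exact Or.inl h
      · exact Or.inr h
    have h3 : Fintype.card ι ≤ U.ncard + V.ncard := by
      calc Fintype.card ι = (Set.univ : Set ι).ncard := by
            rw [Set.ncard_univ, Nat.card_eq_fintype_card]
        _ ≤ (U ∪ V).ncard := Set.ncard_le_ncard hUV (Set.toFinite _)
        _ ≤ U.ncard + V.ncard := Set.ncard_union_le _ _
    have h4 : (Fintype.card ι : ℝ) ≤ U.ncard + V.ncard := by exact_mod_cast h3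
    linarith

end Pool.Agent.Results.MP_fc1c69_an.HalfOfDiscs
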