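import Pool.Agent.Y262.HD.Half

/-!
# Most small discs have a bounded doubling index on tori whose metric is analytic in one variable

The torus is `ℝ × ℝ` modulo the lattice generated by `(L, α)` and `(0, 2π)`, with the metric
`ρ(x, y)(dx² + dy²)`, where `ρ` is continuous in both variables and real analytic in `y` only
(uniformly). This contains, with no assumption on the profile besides continuity, all metrics
invariant under a circle action on the torus.

For all eigenfunctions and all coverings of the torus by geodesic discs of radius `A / √λ` with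
centers on the nodal set, such that every point lies in at most `C₁` discs: for every `δ > 0` there is
`K`, which depends on the metric, `A`, `C₁` and `δ` only, such that at least the proportion `1 - δ` of
the discs has a doubling index `≤ K`. For `δ = 1 / 2` this is the question of Nazarov, Polterovich and
Sodin. There is no condition on the number of discs: a lower bound `c (1 + λ)` is derived from the
covering property.

The main estimate is the weak type inequality of helper291 (`Pool.Agent.Y291.PA.Final`).
-/

set_option autoImplicit false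

namespace Pool.Agent.Results.MP_fc1c69_an.PartiallyAnalyticTori

open Pool.Agent.Y291.DB Pool.Agent.Y291.PA

/-- The discs of radius `A / √lam` with centers `c i` cover the torus, every point lies in at most `C₁`
of them, and `φ` vanishes at the centers. -/
structure Covering (ρ : ℝ × ℝ → ℝ) (L α lam : ℝ) (φ : ℝ × ℝ → ℝ) (A C₁ : ℝ) {ι : Type} [Fintype ι]
    (c : ι → ℝ × ℝ) : Prop where
  cover : ∀ q : ℝ × ℝ, ∃ i, q ∈ disc ρ L α (c i) (A / Real.sqrt lam)
  mult : ∀ q : ℝ × ℝ, ({i | q ∈ disc ρ L α (c i) (A / Real.sqrt lam)}.ncard : ℝ) ≤ C₁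
  zero : ∀ i, φ (c i) = 0

/-- Let `ρ` be a continuous positive function on the torus, analytic in the second variable. For all
`A, C₁, δ > 0` there is a constant `K` such that for all eigenfunctions and all coverings as in the
question at least `(1 - δ) #B` of the discs have a doubling index `≤ K`. -/
theorem result (ρ : ℝ × ℝ → ℝ) (L α : ℝ) (hL : 0 < L) (hρc : Continuous ρ)
    (hρpos : ∀ p, 0 < ρ p) (hρx : ∀ p : ℝ × ℝ, ρ (p.1 + L, p.2 + α) = ρ p)
    (hρy : ∀ p : ℝ × ℝ, ρ (p.1, p.2 + 2 * Real.pi) = ρ p) (hρa : AnalyticInSecond ρ)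
    (A C₁ : ℝ) (hA : 0 < A) (hC₁ : 0 < C₁) (δ : ℝ) (hδ : 0 < δ) :
    ∃ K : ℝ, 0 < K ∧ ∀ (lam : ℝ) (φ : ℝ × ℝ → ℝ), Eigen ρ L α lam φ →
      ∀ (ι : Type) [Fintype ι] (c : ι → ℝ × ℝ), Covering ρ L α lam φ A C₁ c →
        (1 - δ) * Fintype.card ι ≤
          (({i | doubling ρ L α φ (c i) (A / Real.sqrt lam) ≤ K}.ncard : ℕ) : ℝ) := by
  obtain ⟨K, hK, h⟩ := Pool.Agent.Y262.HD.half hL hρc hρpos hρx hρy hρa hA hC₁ δ hδ
  exact ⟨K, hK, fun lam φ hφ ι _ c hc => h lam φ hφ ι c ⟨hc.cover, hc.mult, hc.zero⟩⟩

end Pool.Agent.Results.MP_fc1c69_an.PartiallyAnalyticTori
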